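import Pool.Agent.X185.CA.Fin
set_option autoImplicit false
set_option linter.all false

noncomputable section

namespace Pool.Agent.X185.CA

/-- the cellular automaton of radius `ρ` with local rule `f`; the arguments
`x_1, …, x_{2ρ+1}` of the local rule are indexed from `0` -/
def globalMap {p : ℕ} (ρ : ℕ) (f : (Fin (2 * ρ + 1) → ZMod p) → ZMod p)
    (x : ℤ → ZMod p) (i : ℤ) : ZMod p :=
  f (fun j => x (i - ρ + (j : ℕ)))

theorem main (p : ℕ) [hp : Fact p.Prime] (ρ : ℕ) (f : (Fin (2 * ρ + 1) → ZMod p) → ZMod p)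
    (l m r : Fin (2 * ρ + 1)) (hlm : l < m) (hmr : m < r) (al ar : ZMod p) (hal : al ≠ 0)
    (har : ar ≠ 0) (ql qr : ℕ) (hql : 1 ≤ ql) (hqr : 1 ≤ qr) (π : ZMod p → ZMod p)
    (hf : ∀ x, f x = π (x m) + al * x l ^ ql + ar * x r ^ qr)
    (hsurj : Function.Surjective (globalMap ρ f)) :
    ql.Coprime (p - 1) ∨ qr.Coprime (p - 1) := by
  by_contra hcon
  rw [not_or] at hcon
  obtain ⟨h, h1, h2, h3⟩ := power_sum al hal ql hql hcon.1
  obtain ⟨h', h1', h2', h3'⟩ := power_sum ar har qr hqr hcon.2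
  have hlm' : l.1 < m.1 := hlm
  have hmr' : m.1 < r.1 := hmr
  apply not_surj (r.1 - l.1) (m.1 - l.1) (by omega) (by omega) (fun x => al * x ^ ql) π
    (fun x => ar * x ^ qr) h h' h1 h1' h2 h2' h3 h3'
  intro y
  obtain ⟨x, hx⟩ := hsurj (fun i => y (i - ρ + l.1))
  refine ⟨x, ?_⟩
  funext i
  have h4 := congrFun hx (i + ρ - l.1)
  simp only [globalMap, hf] at h4
  simp only [ca]
  have e0 : i + (ρ : ℤ) - (l.1 : ℤ) - ρ + (l.1 : ℤ) = i := by ring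
  have e1 : i + (ρ : ℤ) - (l.1 : ℤ) - ρ + (m.1 : ℤ) = i + ((m.1 - l.1 : ℕ) : ℤ) := by
    rw [Nat.cast_sub hlm'.le]; ring
  have e2 : i + (ρ : ℤ) - (l.1 : ℤ) - ρ + (r.1 : ℤ) = i + ((r.1 - l.1 : ℕ) : ℤ) := by
    rw [Nat.cast_sub (hlm'.trans hmr').le]; ring
  rw [e0, e1, e2] at h4
  rw [← h4]; ring

end Pool.Agent.X185.CA
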