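import Pool.Agent.X185.CA.Key
set_option autoImplicit false
set_option linter.all false

open Finset Filter

noncomputable section

namespace Pool.Agent.X185.CA

section
variable {p : ℕ} [hp : Fact p.Prime]

theorem meet (S S' : Finset (ZMod p)) (h0 : (0 : ZMod p) ∉ S) (h0' : (0 : ZMod p) ∉ S')
    (hc : p ≤ S.card + S'.card) (u w : ZMod p) (hu : u ≠ 0) (hw : w ≠ 0) :
    ∃ v : ZMod p, v ≠ 0 ∧ v / u ∈ S ∧ w / v ∈ S' := by
  classical
  by_contra hcon
  push Not at hcon
  have hdisj : Disjoint (S.image (fun s => u * s)) (S'.image (fun s => w * s⁻¹)) := by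
    rw [disjoint_left]
    intro v hv hv'
    obtain ⟨s, hs, rfl⟩ := mem_image.mp hv
    obtain ⟨s', hs', h⟩ := mem_image.mp hv'
    have hs0 : s ≠ 0 := fun h => h0 (h ▸ hs)
    have hs0' : s' ≠ 0 := fun h => h0' (h ▸ hs')
    apply hcon (u * s) (mul_ne_zero hu hs0) (by rw [mul_div_cancel_left₀ _ hu]; exact hs)
    rw [← h]
    have : w / (w * s'⁻¹) = s' := by field_simp
    rw [this]; exact hs'
  have hsub : (S.image (fun s => u * s)) ∪ (S'.image (fun s => w * s⁻¹)) ⊆ univ.erase 0 := by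
    intro v hv
    rw [mem_erase]
    refine ⟨?_, mem_univ _⟩
    rcases mem_union.mp hv with h | h
    · obtain ⟨s, hs, rfl⟩ := mem_image.mp h
      exact mul_ne_zero hu (fun h => h0 (h ▸ hs))
    · obtain ⟨s, hs, rfl⟩ := mem_image.mp h
      exact mul_ne_zero hw (inv_ne_zero (fun h => h0' (h ▸ hs)))
  have h1 := card_le_card hsub
  have hinj : Function.Injective (fun s : ZMod p => w * s⁻¹) :=
    fun a b h => inv_injective (mul_left_cancel₀ hw h)
  rw [card_union_of_disjoint hdisj, card_image_of_injective _ (mul_right_injective₀ hu),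
    card_image_of_injective _ hinj,
    card_erase_of_mem (mem_univ _), card_univ, ZMod.card] at h1
  have := hp.out.pos
  omega

theorem chain (n : ℕ) (hn : 2 ≤ n) (T : ℕ → Finset (ZMod p)) (h0 : ∀ k, (0 : ZMod p) ∉ T k)
    (hc : ∀ k l, p ≤ (T k).card + (T l).card) :
    ∃ τ : ℕ → ZMod p, (∀ k < n, τ k ≠ 0) ∧ (∀ k, k + 1 < n → τ (k + 1) / τ k ∈ T k) ∧
      τ 0 / τ (n - 1) ∈ T (n - 1) := by
  classical
  have hne : ∀ k, ∃ s, s ∈ T k := by
    intro k
    have h1 := hc k k
    have h2 := hp.out.pos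
    exact card_pos.mp (by omega)
  choose r hr using hne
  obtain ⟨P, hP⟩ : ∃ P : ℕ → ZMod p, ∀ k, P k = ∏ i ∈ range k, r i := ⟨_, fun k => rfl⟩
  have hr0 : ∀ k, r k ≠ 0 := fun k h => h0 k (h ▸ hr k)
  have hP0 : ∀ k, P k ≠ 0 := fun k => by rw [hP]; exact prod_ne_zero_iff.mpr fun i _ => hr0 i
  obtain ⟨v, hv0, hv1, hv2⟩ := meet (T (n - 2)) (T (n - 1)) (h0 _) (h0 _) (hc _ _) (P (n - 2)) (P 0)
    (hP0 _) (hP0 _)
  refine ⟨fun k => if k = n - 1 then v else P k, ?_, ?_, ?_⟩
  · intro k _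
    simp only
    split_ifs
    · exact hv0
    · exact hP0 k
  · intro k hk
    simp only
    rw [if_neg (show k ≠ n - 1 by omega)]
    split_ifs with h
    · have : k = n - 2 := by omega
      rw [this]; exact hv1
    · have : P (k + 1) / P k = r k := by
        rw [hP, hP, prod_range_succ, mul_div_cancel_left₀]
        rw [← hP]; exact hP0 k
      rw [this]; exact hr k
  · simp only
    rw [if_neg (show 0 ≠ n - 1 by omega)]
    simp only [if_true]
    exact hv2

theorem nb_smul {α : ZMod p → ZMod p} (h : ¬ Function.Bijective α) (c : ZMod p) :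
    ¬ Function.Bijective (fun a => c * α a) := by
  intro hb
  apply h
  apply Finite.injective_iff_bijective.mp
  intro x y hxy
  apply hb.1
  simp only [hxy]

theorem bij_scale {f g : ZMod p → ZMod p} (c : ZMod p) (hc : c ≠ 0) (h : ∀ a, f a = c * g a)
    (hf : Function.Bijective f) : Function.Bijective g := by
  have e : g = (fun y => c⁻¹ * y) ∘ f := by
    funext a
    simp only [Function.comp_apply]
    rw [h a, ← mul_assoc, inv_mul_cancel₀ hc, one_mul]
  rw [e]
  exact Function.Bijective.comp (mulLeft_bijective₀ _ (inv_ne_zero hc)) hf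

theorem exists_t (n A : ℕ) (hA0 : 0 < A) (hAn : A < n) (hco : A.Coprime n)
    (α π β : ZMod p → ZMod p) (h h' : ℕ) (h1 : 1 ≤ h) (h1' : 1 ≤ h')
    (h2 : 2 * h ≤ p - 1) (h2' : 2 * h' ≤ p - 1)
    (hα : ∑ x, α x ^ h ≠ 0) (hβ : ∑ x, β x ^ h' ≠ 0) :
    ∃ t : ℕ → ZMod p, (∀ i, n ≤ i → t i = 0) ∧ t 0 ≠ 0 ∧
      (∀ j, j < n - A → ¬ Function.Bijective (fun a => t (j + A) * α a + t j * π a)) ∧
      (∀ j, n - A ≤ j → j < n →
        ¬ Function.Bijective (fun a => t j * π a + t (j - (n - A)) * β a)) := by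
  classical
  have hαn := nonbij α h (by omega) hα
  have hβn := nonbij β h' (by omega) hβ
  by_cases hπ : Function.Bijective π
  · obtain ⟨Sa, hSa⟩ : ∃ S, S = univ.filter (fun v : ZMod p =>
      ¬ Function.Bijective (fun a => π a + v * α a)) := ⟨_, rfl⟩
    obtain ⟨Sb, hSb⟩ : ∃ S, S = univ.filter (fun v : ZMod p =>
      ¬ Function.Bijective (fun a => π a + v * β a)) := ⟨_, rfl⟩
    have hSa0 : (0 : ZMod p) ∉ Sa := by
      rw [hSa, mem_filter]; simpa using hπ
    have hSb0 : (0 : ZMod p) ∉ Sb := by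
      rw [hSb, mem_filter]; simpa using hπ
    have hSac : p - h ≤ Sa.card := by
      have a1 := few α π h h1 (by omega) hα
      have a2 := Finset.card_filter_add_card_filter_not (s := (univ : Finset (ZMod p)))
        (fun v : ZMod p => Function.Bijective (fun a => π a + v * α a))
      rw [card_univ, ZMod.card] at a2
      rw [hSa]; omega
    have hSbc : p - h' ≤ Sb.card := by
      have a1 := few β π h' h1' (by omega) hβ
      have a2 := Finset.card_filter_add_card_filter_not (s := (univ : Finset (ZMod p)))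
        (fun v : ZMod p => Function.Bijective (fun a => π a + v * β a))
      rw [card_univ, ZMod.card] at a2
      rw [hSb]; omega
    obtain ⟨T, hT⟩ : ∃ T : ℕ → Finset (ZMod p), ∀ k, T k =
      if (k * A) % n < n - A then Sa else Sb := ⟨_, fun k => rfl⟩
    obtain ⟨τ, hτ0, hτ1, hτ2⟩ := chain n (by omega) T (by
      intro k; rw [hT]; split_ifs <;> assumption) (by
      intro k l; rw [hT, hT]; split_ifs <;> omega)
    haveI : NeZero n := ⟨by omega⟩
    obtain ⟨κ, hκ⟩ : ∃ κ : ℕ → ℕ, ∀ j, κ j = ((j : ZMod n) * ((A : ZMod n))⁻¹).val :=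
      ⟨_, fun j => rfl⟩
    have hκn : ∀ j, κ j < n := fun j => by rw [hκ]; exact ZMod.val_lt _
    have hAinv : (A : ZMod n) * (A : ZMod n)⁻¹ = 1 := ZMod.coe_mul_inv_eq_one A hco
    have hκA : ∀ j < n, (κ j * A) % n = j := by
      intro j hj
      have h3 : ((κ j * A : ℕ) : ZMod n) = (j : ZMod n) := by
        push_cast
        rw [hκ, ZMod.natCast_val, ZMod.cast_id', id, mul_assoc, mul_comm _ (A : ZMod n), hAinv,
          mul_one]
      rw [ZMod.natCast_eq_natCast_iff'] at h3
      rw [h3, Nat.mod_eq_of_lt hj]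
    have hκ0 : κ 0 = 0 := by rw [hκ]; simp
    have hstep : ∀ j j' : ℕ, ((j' : ℕ) : ZMod n) = (j : ZMod n) + A → κ j' = (κ j + 1) % n := by
      intro j j' hjj
      rw [hκ, hκ, hjj, add_mul, hAinv, ZMod.val_add, ZMod.val_one_eq_one_mod,
        Nat.mod_eq_of_lt (show 1 < n by omega)]
    have hrel : ∀ j j' : ℕ, ((j' : ℕ) : ZMod n) = (j : ZMod n) + A →
        τ (κ j') / τ (κ j) ∈ T (κ j) := by
      intro j j' hjj
      have h3 := hstep j j' hjj
      have h4 := hκn j
      rcases Nat.lt_or_ge (κ j + 1) n with h5 | h5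
      · rw [h3, Nat.mod_eq_of_lt h5]; exact hτ1 _ h5
      · have h6 : κ j = n - 1 := by omega
        have h7 : κ j' = 0 := by
          rw [h3, h6]
          have : n - 1 + 1 = n := by omega
          rw [this, Nat.mod_self]
        rw [h7, h6]; exact hτ2
    refine ⟨fun j => if j < n then τ (κ j) else 0, ?_, ?_, ?_, ?_⟩
    · intro i hi; simp only; rw [if_neg (by omega)]
    · simp only; rw [if_pos (by omega)]; exact hτ0 _ (hκn _)
    · intro j hj
      simp only
      rw [if_pos (by omega), if_pos (by omega)]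
      have h3 := hrel j (j + A) (by push_cast; ring)
      rw [hT, hκA j (by omega), if_pos hj, hSa, mem_filter] at h3
      intro hb
      apply h3.2
      apply bij_scale (τ (κ j)) (hτ0 _ (hκn j)) _ hb
      intro a
      have := hτ0 _ (hκn j)
      field_simp
      ring
    · intro j hj hjn
      simp only
      rw [if_pos hjn, if_pos (by omega)]
      have h3 := hrel j (j - (n - A)) (by
        have e : ((j - (n - A) + n : ℕ) : ZMod n) = ((j + A : ℕ) : ZMod n) := by
          congr 1; omega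
        push_cast at e
        rw [ZMod.natCast_self, add_zero] at e
        exact e)
      rw [hT, hκA j hjn, if_neg (by omega), hSb, mem_filter] at h3
      intro hb
      apply h3.2
      apply bij_scale (τ (κ j)) (hτ0 _ (hκn j)) _ hb
      intro a
      have := hτ0 _ (hκn j)
      field_simp
  · refine ⟨fun i => if i = 0 then 1 else 0, ?_, ?_, ?_, ?_⟩
    · intro i hi; simp only; rw [if_neg (by omega)]
    · simp
    · intro j hj
      simp only
      rw [if_neg (show j + A ≠ 0 by omega)]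
      by_cases hj0 : j = 0
      · rw [if_pos hj0]; simpa using hπ
      · rw [if_neg hj0]
        intro hb
        have e : (fun a : ZMod p => (0 : ZMod p) * α a + 0 * π a) = fun _ => 0 := by
          funext a; ring
        rw [e] at hb
        exact zero_ne_one (hb.1 (rfl : (fun _ : ZMod p => (0 : ZMod p)) 0 = (fun _ => 0) 1))
    · intro j hj hjn
      simp only
      rw [if_neg (show j ≠ 0 by omega)]
      intro hb
      have e : (fun a : ZMod p => (0 : ZMod p) * π a +
          (if j - (n - A) = 0 then 1 else 0) * β a) =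
          fun a => (if j - (n - A) = 0 then (1 : ZMod p) else 0) * β a := by
        funext a; ring
      rw [e] at hb
      exact nb_smul hβn _ hb

theorem not_surj_coprime (n A : ℕ) (hA0 : 0 < A) (hAn : A < n) (hco : A.Coprime n)
    (α π β : ZMod p → ZMod p) (h h' : ℕ) (h1 : 1 ≤ h) (h1' : 1 ≤ h')
    (h2 : 2 * h ≤ p - 1) (h2' : 2 * h' ≤ p - 1)
    (hα : ∑ x, α x ^ h ≠ 0) (hβ : ∑ x, β x ^ h' ≠ 0) :
    ¬ Function.Surjective (ca A n α π β) := by
  intro hsurj
  have hαn := nonbij α h (by omega) hα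
  have hβn := nonbij β h' (by omega) hβ
  obtain ⟨t, ht, ht0, hta, htb⟩ := exists_t n A hA0 hAn hco α π β h h' h1 h1' h2 h2' hα hβ
  apply key n A hA0 hAn α π β hsurj t ht 0 (by omega) ht0
  intro i hi
  rcases Nat.lt_or_ge i A with c1 | c1
  · rw [if_neg (by omega), if_neg (by omega)]
    simpa using nb_smul hαn (t i)
  rcases Nat.lt_or_ge i n with c2 | c2
  · rw [if_pos c1, if_neg (by omega)]
    have h3 := hta (i - A) (by omega)
    rw [Nat.sub_add_cancel c1] at h3
    simpa using h3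
  rw [if_pos c1, if_pos c2, ht i c2]
  rcases Nat.lt_or_ge i (n + A) with c3 | c3
  · have h3 := htb (i - A) (by omega) (by omega)
    have e : i - A - (n - A) = i - n := by omega
    rw [e] at h3
    simpa using h3
  · rw [ht (i - A) (by omega)]
    simpa using nb_smul hβn (t (i - n))

theorem not_surj (n A : ℕ) (hA0 : 0 < A) (hAn : A < n)
    (α π β : ZMod p → ZMod p) (h h' : ℕ) (h1 : 1 ≤ h) (h1' : 1 ≤ h')
    (h2 : 2 * h ≤ p - 1) (h2' : 2 * h' ≤ p - 1)
    (hα : ∑ x, α x ^ h ≠ 0) (hβ : ∑ x, β x ^ h' ≠ 0) :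
    ¬ Function.Surjective (ca A n α π β) := by
  intro hsurj
  obtain ⟨g, hg⟩ : ∃ g, g = A.gcd n := ⟨_, rfl⟩
  have hg0 : 0 < g := by rw [hg]; exact Nat.gcd_pos_of_pos_left _ hA0
  obtain ⟨A', hA'⟩ : g ∣ A := by rw [hg]; exact Nat.gcd_dvd_left _ _
  obtain ⟨n', hn'⟩ : g ∣ n := by rw [hg]; exact Nat.gcd_dvd_right _ _
  have hco : A'.Coprime n' := by
    have := Nat.gcd_mul_left g A' n'
    rw [← hA', ← hn', ← hg] at this
    have h3 : g * 1 = g * A'.gcd n' := by rw [mul_one]; exact this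
    exact (Nat.eq_of_mul_eq_mul_left hg0 h3).symm
  have hA'0 : 0 < A' := by
    rcases Nat.eq_zero_or_pos A' with h | h
    · rw [h] at hA'; omega
    · exact h
  have hAn' : A' < n' := by
    rw [hA', hn'] at hAn
    exact Nat.lt_of_mul_lt_mul_left hAn
  apply not_surj_coprime n' A' hA'0 hAn' hco α π β h h' h1 h1' h2 h2' hα hβ
  intro y
  obtain ⟨x, hx⟩ := hsurj (fun i => y (i / g))
  refine ⟨fun i => x (g * i), ?_⟩
  funext i
  have h3 := congrFun hx (g * i)
  simp only [ca] at h3 ⊢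
  have hgz : (g : ℤ) ≠ 0 := by exact_mod_cast hg0.ne'
  rw [Int.mul_ediv_cancel_left _ hgz] at h3
  rw [← h3, hA', hn']
  push_cast
  ring_nf

theorem power_sum (a : ZMod p) (ha : a ≠ 0) (q : ℕ) (hq : 1 ≤ q) (hnc : ¬ q.Coprime (p - 1)) :
    ∃ h : ℕ, 1 ≤ h ∧ 2 * h ≤ p - 1 ∧ ∑ x : ZMod p, (a * x ^ q) ^ h ≠ 0 := by
  have hp1 : 0 < p - 1 := by have := hp.out.one_lt; omega
  obtain ⟨m, hm⟩ : ∃ m, m = q.gcd (p - 1) := ⟨_, rfl⟩
  have hm0 : 0 < m := by rw [hm]; exact Nat.gcd_pos_of_pos_left _ hq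
  have hm2 : 2 ≤ m := by
    have : m ≠ 1 := by rw [hm]; exact hnc
    omega
  obtain ⟨h, hh⟩ : m ∣ p - 1 := by rw [hm]; exact Nat.gcd_dvd_right _ _
  obtain ⟨k, hk⟩ : m ∣ q := by rw [hm]; exact Nat.gcd_dvd_left _ _
  have hh0 : 1 ≤ h := by
    rcases Nat.eq_zero_or_pos h with h3 | h3
    · rw [h3] at hh; omega
    · exact h3
  have hk0 : 1 ≤ k := by
    rcases Nat.eq_zero_or_pos k with h3 | h3
    · rw [h3] at hk; omega
    · exact h3
  refine ⟨h, hh0, by rw [hh]; exact Nat.mul_le_mul_right h hm2, ?_⟩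
  have e : ∀ x : ZMod p, (a * x ^ q) ^ h = a ^ h * (if x = 0 then 0 else 1) := by
    intro x
    rw [mul_pow, ← pow_mul]
    congr 1
    have e1 : q * h = (p - 1) * k := by rw [hh, hk]; ring
    rw [e1]
    split_ifs with hx
    · rw [hx]; exact zero_pow (by positivity)
    · rw [pow_mul, ZMod.pow_card_sub_one_eq_one hx, one_pow]
  rw [sum_congr rfl (fun x _ => e x), ← mul_sum]
  apply mul_ne_zero (pow_ne_zero _ ha)
  have e2 : ∑ x : ZMod p, (if x = 0 then (0 : ZMod p) else 1) = -1 := by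
    have e3 : ∀ x : ZMod p, (if x = 0 then (0 : ZMod p) else 1) = 1 - (if x = 0 then 1 else 0) := by
      intro x; split_ifs <;> ring
    rw [sum_congr rfl (fun x _ => e3 x), sum_sub_distrib]
    simp
  rw [e2]
  exact neg_ne_zero.mpr one_ne_zero

end

end Pool.Agent.X185.CA
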