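import Pool.Agent.X185.CA.Main
set_option autoImplicit false
set_option linter.all false

open Finset Filter

noncomputable section

namespace Pool.Agent.X185.CA

/-- sum reindexing -/
theorem shift_sum {R : Type} [CommRing R] (A m N : ℕ) (hN : m + A ≤ N) (t φ : ℕ → R)
    (ht : ∀ i, m ≤ i → t i = 0) :
    ∑ r ∈ range m, t r * φ (r + A) =
      ∑ i ∈ range N, (if A ≤ i then t (i - A) else 0) * φ i := by
  obtain ⟨d, hd⟩ := Nat.exists_eq_add_of_le hN
  have e : N = A + (m + d) := by omega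
  rw [e, sum_range_add]
  have h1 : ∑ x ∈ range A, (if A ≤ x then t (x - A) else 0) * φ x = 0 := by
    apply sum_eq_zero
    intro x hx
    rw [if_neg (by have := mem_range.mp hx; omega), zero_mul]
  rw [h1, zero_add, sum_range_add]
  have h2 : ∑ x ∈ range d, (if A ≤ A + (m + x) then t (A + (m + x) - A) else 0) * φ (A + (m + x)) = 0 := by
    apply sum_eq_zero
    intro x hx
    rw [if_pos (by omega), Nat.add_sub_cancel_left, ht _ (by omega), zero_mul]
  rw [h2, add_zero]
  apply sum_congr rfl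
  intro r _
  rw [if_pos (by omega), Nat.add_sub_cancel_left, add_comm]

section
variable {p : ℕ} [hp : Fact p.Prime]

/-- the automaton -/
def ca (A n : ℕ) (α π β : ZMod p → ZMod p) : (ℤ → ZMod p) → (ℤ → ZMod p) :=
  fun x i => α (x i) + π (x (i + A)) + β (x (i + n))

/-- extension of a block -/
def bar {L : ℕ} (x : Fin L → ZMod p) (i : ℕ) : ZMod p := if h : i < L then x ⟨i, h⟩ else 0

def bar2 {L : ℕ} (x x' : Fin L → ZMod p) (i : ℕ) : ZMod p :=
  if i < L then bar x i else bar x' (i - L)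

theorem key (n A : ℕ) (hA0 : 0 < A) (hAn : A < n) (α π β : ZMod p → ZMod p)
    (hsurj : Function.Surjective (ca A n α π β))
    (t : ℕ → ZMod p) (ht : ∀ i, n ≤ i → t i = 0) (r0 : ℕ) (hr0 : r0 < n) (htr : t r0 ≠ 0)
    (hnb : ∀ i < 2 * n, ¬ Function.Bijective (fun a => t i * α a +
      (if A ≤ i then t (i - A) else 0) * π a + (if n ≤ i then t (i - n) else 0) * β a)) : False := by
  classical
  obtain ⟨L, hL⟩ : ∃ L, L = 2 * n := ⟨_, rfl⟩
  have hLpos : 0 < L := by omega
  obtain ⟨Ψ, hΨ⟩ : ∃ Ψ : (Fin L → ZMod p) → (Fin L → ZMod p) → (Fin L → ZMod p), ∀ x x' r,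
      Ψ x x' r = α (bar2 x x' r.1) + π (bar2 x x' (r.1 + A)) + β (bar2 x x' (r.1 + n)) :=
    ⟨fun x x' r => _, fun x x' r => rfl⟩
  obtain ⟨K, hK⟩ : ∃ K : (Fin L → ZMod p) → (Fin n → ZMod p), ∀ x r,
      K x r = α (bar x r.1) + π (bar x (r.1 + A)) + β (bar x (r.1 + n)) :=
    ⟨fun x r => _, fun x r => rfl⟩
  obtain ⟨κ, hκ⟩ : ∃ κ : (Fin L → ZMod p) → (Fin n → ZMod p), ∀ y r, κ y r = bar y r.1 :=
    ⟨fun y r => _, fun y r => rfl⟩
  have h1 : ∀ x x', κ (Ψ x x') = K x := by
    intro x x'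
    funext r
    have hr := r.2
    have a1 : bar (Ψ x x') r.1 = Ψ x x' ⟨r.1, by omega⟩ := by
      unfold bar; rw [dif_pos (show r.1 < L by omega)]
    rw [hκ, a1, hΨ, hK]
    simp only [bar2]
    rw [if_pos (by omega), if_pos (by omega), if_pos (by omega)]
  have h2 : ∀ y : ℕ → (Fin L → ZMod p), ∃ x : ℕ → (Fin L → ZMod p), ∀ j,
      Ψ (x j) (x (j + 1)) = y j := by
    intro y
    obtain ⟨xc, hxc⟩ := hsurj (fun i => y (i.toNat / L) ⟨i.toNat % L, Nat.mod_lt _ hLpos⟩)
    refine ⟨fun j r => xc ((L * j + r.1 : ℕ) : ℤ), ?_⟩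
    intro j
    funext r
    have hr := r.2
    have hb : ∀ i : ℕ, i < 2 * L → bar2 (fun r : Fin L => xc ((L * j + r.1 : ℕ) : ℤ))
        (fun r : Fin L => xc ((L * (j + 1) + r.1 : ℕ) : ℤ)) i = xc ((L * j + i : ℕ) : ℤ) := by
      intro i hi
      unfold bar2 bar
      split_ifs with h3 h4
      · rfl
      · have e : L * (j + 1) + (i - L) = L * j + i := by rw [Nat.mul_succ]; omega
        show xc ((L * (j + 1) + (i - L) : ℕ) : ℤ) = _
        rw [e]
      · omega
    rw [hΨ, hb _ (by omega), hb _ (by omega), hb _ (by omega)]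
    have h5 := congrFun hxc ((L * j + r.1 : ℕ) : ℤ)
    simp only [ca] at h5
    have e1 : (((L * j + r.1 : ℕ) : ℤ)).toNat = L * j + r.1 := Int.toNat_natCast _
    have e2 : (L * j + r.1) / L = j := by
      rw [Nat.mul_add_div hLpos, Nat.div_eq_of_lt hr, add_zero]
    have e3 : (L * j + r.1) % L = r.1 := by
      rw [Nat.mul_add_mod, Nat.mod_eq_of_lt hr]
    have e4 : ((L * j + (r.1 + A) : ℕ) : ℤ) = ((L * j + r.1 : ℕ) : ℤ) + A := by push_cast; ring
    have e5 : ((L * j + (r.1 + n) : ℕ) : ℤ) = ((L * j + r.1 : ℕ) : ℤ) + n := by push_cast; ring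
    rw [e4, e5, h5]
    have e6 : ∀ (a b : ℕ) (ha : a = j) (hb : b < L) (hb' : b = r.1), y a ⟨b, hb⟩ = y j r := by
      intro a b ha hb hb'; subst ha; congr 1; exact Fin.ext hb'
    exact e6 _ _ (by rw [e1, e2]) _ (by rw [e1, e3])
  have hmain := sum_eq Ψ K κ h1 h2 rfl
    (fun w : Fin n → ZMod p => (ZMod.stdAddChar (∑ r, t r.1 * w r) : ℂ))
  -- left side
  have hleft : ∀ x : Fin L → ZMod p, ∑ r : Fin n, t r.1 * K x r =
      ∑ i : Fin L, (t i.1 * α (x i) + (if A ≤ i.1 then t (i.1 - A) else 0) * π (x i) +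
        (if n ≤ i.1 then t (i.1 - n) else 0) * β (x i)) := by
    intro x
    have a1 : ∑ r : Fin n, t r.1 * K x r = ∑ r ∈ range n, (t r * α (bar x r) +
        t r * π (bar x (r + A)) + t r * β (bar x (r + n))) := by
      rw [← Fin.sum_univ_eq_sum_range (fun r => t r * α (bar x r) +
        t r * π (bar x (r + A)) + t r * β (bar x (r + n))) n]
      apply sum_congr rfl; intro r _
      rw [hK]; ring
    have a2 : ∑ i : Fin L, (t i.1 * α (x i) + (if A ≤ i.1 then t (i.1 - A) else 0) * π (x i) +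
        (if n ≤ i.1 then t (i.1 - n) else 0) * β (x i)) =
        ∑ i ∈ range L, (t i * α (bar x i) + (if A ≤ i then t (i - A) else 0) * π (bar x i) +
        (if n ≤ i then t (i - n) else 0) * β (bar x i)) := by
      rw [← Fin.sum_univ_eq_sum_range (fun i => t i * α (bar x i) +
        (if A ≤ i then t (i - A) else 0) * π (bar x i) +
        (if n ≤ i then t (i - n) else 0) * β (bar x i)) L]
      apply sum_congr rfl; intro i _
      have : bar x i.1 = x i := by unfold bar; rw [dif_pos i.2]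
      rw [this]
    rw [a1, a2, sum_add_distrib, sum_add_distrib, sum_add_distrib, sum_add_distrib]
    have b1 := shift_sum 0 n L (by omega) t (fun i => α (bar x i)) ht
    have b2 := shift_sum A n L (by omega) t (fun i => π (bar x i)) ht
    have b3 := shift_sum n n L (by omega) t (fun i => β (bar x i)) ht
    simp only [Nat.zero_le, if_true, Nat.sub_zero, add_zero] at b1
    rw [b1, b2, b3]
  have hL1 : ∑ x : Fin L → ZMod p, (ZMod.stdAddChar (∑ r, t r.1 * K x r) : ℂ) ≠ 0 := by
    rw [sum_congr rfl (fun x _ => by rw [hleft x]),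
      prod_form (fun (i : Fin L) a => t i.1 * α a + (if A ≤ i.1 then t (i.1 - A) else 0) * π a +
        (if n ≤ i.1 then t (i.1 - n) else 0) * β a)]
    apply prod_ne_zero_iff.mpr
    intro i _
    exact sum_char_ne _ (hnb i.1 (by have := i.2; omega))
  have hR1 : ∑ y : Fin L → ZMod p, (ZMod.stdAddChar (∑ r, t r.1 * κ y r) : ℂ) = 0 := by
    have hright : ∀ y : Fin L → ZMod p, ∑ r : Fin n, t r.1 * κ y r =
        ∑ i : Fin L, t i.1 * y i := by
      intro y
      have a1 : ∑ r : Fin n, t r.1 * κ y r = ∑ r ∈ range n, t r * bar y r := by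
        rw [← Fin.sum_univ_eq_sum_range (fun r => t r * bar y r) n]
        apply sum_congr rfl; intro r _; rw [hκ]
      have a2 : ∑ i : Fin L, t i.1 * y i = ∑ i ∈ range L, t i * bar y i := by
        rw [← Fin.sum_univ_eq_sum_range (fun i => t i * bar y i) L]
        apply sum_congr rfl; intro i _
        have : bar y i.1 = y i := by unfold bar; rw [dif_pos i.2]
        rw [this]
      have b1 := shift_sum 0 n L (by omega) t (fun i => bar y i) ht
      simp only [Nat.zero_le, if_true, Nat.sub_zero, add_zero] at b1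
      rw [a1, a2, b1]
    rw [sum_congr rfl (fun y _ => by rw [hright y]),
      prod_form (fun (i : Fin L) a => t i.1 * a)]
    apply prod_eq_zero (i := (⟨r0, by omega⟩ : Fin L)) (mem_univ _)
    exact sum_char_bij _ (mulLeft_bijective₀ _ htr)
  exact hL1 (hmain.trans hR1)

end

end Pool.Agent.X185.CA
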