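import Mathlib
set_option autoImplicit false
set_option linter.all false

open Finset Filter

noncomputable section

namespace Pool.Agent.X185.CA

/-- abstract counting lemma -/
theorem abs_count {X Y C : Type} [Fintype X] [Fintype Y] [DecidableEq C] [Nonempty X]
    (Ψ : X → X → Y) (K : X → C) (κ : Y → C)
    (hK : ∀ x x', κ (Ψ x x') = K x)
    (hs : ∀ y : ℕ → Y, ∃ x : ℕ → X, ∀ j, Ψ (x j) (x (j + 1)) = y j) (w : C) :
    Fintype.card {y : Y // κ y = w} ≤ Fintype.card {x : X // K x = w} := by
  classical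
  by_contra hcon
  push Not at hcon
  obtain ⟨a, ha⟩ : ∃ a, a = Fintype.card {y : Y // κ y = w} := ⟨_, rfl⟩
  obtain ⟨b, hb⟩ : ∃ b, b = Fintype.card {x : X // K x = w} := ⟨_, rfl⟩
  rw [← ha, ← hb] at hcon
  have hapos : 0 < a := by omega
  have hne : Nonempty {y : Y // κ y = w} := by
    rw [← Fintype.card_pos_iff, ← ha]; exact hapos
  obtain ⟨y0⟩ := hne
  have hm : ∀ m : ℕ, a ^ m ≤ b ^ m * Fintype.card X := by
    intro m
    have hex : ∀ y : Fin m → {y : Y // κ y = w}, ∃ x : ℕ → X, ∀ j (hj : j < m),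
        Ψ (x j) (x (j + 1)) = (y ⟨j, hj⟩).1 := by
      intro y
      obtain ⟨x, hx⟩ := hs (fun j => if h : j < m then (y ⟨j, h⟩).1 else y0.1)
      refine ⟨x, fun j hj => ?_⟩
      rw [hx j]; simp [hj]
    choose xx hxx using hex
    have hKx : ∀ y : Fin m → {y : Y // κ y = w}, ∀ j : Fin m, K (xx y j.1) = w := by
      intro y j
      rw [← hK (xx y j.1) (xx y (j.1 + 1)), hxx y j.1 j.2]
      exact (y j).2
    have hcard := Fintype.card_le_of_injective
      (fun y : Fin m → {y : Y // κ y = w} =>
        ((fun j : Fin m => (⟨xx y j.1, hKx y j⟩ : {x : X // K x = w})), xx y m)) (by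
        intro y y' h
        simp only [Prod.mk.injEq] at h
        obtain ⟨h1, h2⟩ := h
        have h3 : ∀ j : ℕ, j ≤ m → xx y j = xx y' j := by
          intro j hj
          rcases hj.lt_or_eq with h4 | h4
          · have := congrFun h1 ⟨j, h4⟩
            simpa using this
          · rw [h4]; exact h2
        funext j
        apply Subtype.ext
        rw [← hxx y j.1 j.2, ← hxx y' j.1 j.2, h3 j.1 j.2.le, h3 (j.1 + 1) j.2])
    simp only [Fintype.card_fun, Fintype.card_prod, Fintype.card_fin] at hcard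
    rw [ha, hb]
    exact hcard
  rcases Nat.eq_zero_or_pos b with h0 | hbpos
  · have := hm 1
    rw [h0] at this
    simp at this
    omega
  · have hbr : (0 : ℝ) < b := by exact_mod_cast hbpos
    have h1 : (1 : ℝ) < (a : ℝ) / b := by
      rw [one_lt_div hbr]; exact_mod_cast hcon
    obtain ⟨m, hm2⟩ := pow_unbounded_of_one_lt (Fintype.card X : ℝ) h1
    have h3 : (a : ℝ) ^ m ≤ b ^ m * Fintype.card X := by exact_mod_cast hm m
    rw [div_pow, lt_div_iff₀ (pow_pos hbr m)] at hm2
    linarith

theorem fiber_eq {X Y C : Type} [Fintype X] [Fintype Y] [DecidableEq C] [Fintype C] [Nonempty X]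
    (Ψ : X → X → Y) (K : X → C) (κ : Y → C)
    (hK : ∀ x x', κ (Ψ x x') = K x)
    (hs : ∀ y : ℕ → Y, ∃ x : ℕ → X, ∀ j, Ψ (x j) (x (j + 1)) = y j)
    (hXY : Fintype.card X = Fintype.card Y) (w : C) :
    (univ.filter (fun y : Y => κ y = w)).card = (univ.filter (fun x : X => K x = w)).card := by
  classical
  have h1 : ∀ w ∈ (univ : Finset C), (univ.filter (fun y : Y => κ y = w)).card ≤
      (univ.filter (fun x : X => K x = w)).card := by
    intro w _
    have := abs_count Ψ K κ hK hs w
    rwa [Fintype.card_subtype, Fintype.card_subtype] at this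
  have h2 : ∑ w : C, (univ.filter (fun y : Y => κ y = w)).card =
      ∑ w : C, (univ.filter (fun x : X => K x = w)).card := by
    rw [← card_eq_sum_card_fiberwise (f := κ) (s := univ) (t := univ) (fun _ _ => by simp),
      ← card_eq_sum_card_fiberwise (f := K) (s := univ) (t := univ) (fun _ _ => by simp)]
    simp [hXY]
  exact (sum_eq_sum_iff_of_le h1).mp h2 w (mem_univ w)

theorem sum_eq {X Y C : Type} [Fintype X] [Fintype Y] [DecidableEq C] [Fintype C] [Nonempty X]
    (Ψ : X → X → Y) (K : X → C) (κ : Y → C)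
    (hK : ∀ x x', κ (Ψ x x') = K x)
    (hs : ∀ y : ℕ → Y, ∃ x : ℕ → X, ∀ j, Ψ (x j) (x (j + 1)) = y j)
    (hXY : Fintype.card X = Fintype.card Y) (Φ : C → ℂ) :
    ∑ x : X, Φ (K x) = ∑ y : Y, Φ (κ y) := by
  classical
  have h := fiber_eq Ψ K κ hK hs hXY
  rw [← sum_fiberwise_of_maps_to (s := univ) (t := univ) (g := K) (fun _ _ => mem_univ _),
    ← sum_fiberwise_of_maps_to (s := univ) (t := univ) (g := κ) (fun _ _ => mem_univ _)]
  apply sum_congr rfl
  intro w _
  have e1 : ∑ x ∈ univ.filter (fun x : X => K x = w), Φ (K x) =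
      (univ.filter (fun x : X => K x = w)).card * Φ w := by
    rw [sum_congr rfl (fun x hx => by rw [(mem_filter.mp hx).2]), sum_const, nsmul_eq_mul]
  have e2 : ∑ y ∈ univ.filter (fun y : Y => κ y = w), Φ (κ y) =
      (univ.filter (fun y : Y => κ y = w)).card * Φ w := by
    rw [sum_congr rfl (fun y hy => by rw [(mem_filter.mp hy).2]), sum_const, nsmul_eq_mul]
  rw [e1, e2, h w]

section
variable {p : ℕ} [hp : Fact p.Prime]

/-- a vanishing exponential sum over `ZMod p` comes from a permutation -/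
theorem sum_char_ne (g : ZMod p → ZMod p) (hg : ¬ Function.Bijective g) :
    ∑ x : ZMod p, ZMod.stdAddChar (g x) ≠ 0 := by
  classical
  intro hsum
  apply hg
  have hp0 : 0 < p := hp.out.pos
  obtain ⟨ζ, hζ⟩ : ∃ ζ : ℂ, ζ = ZMod.stdAddChar (1 : ZMod p) := ⟨_, rfl⟩
  have hζprim : IsPrimitiveRoot ζ p := by
    have h1 := Complex.isPrimitiveRoot_exp p hp0.ne'
    have h2 : ζ = Complex.exp (2 * Real.pi * Complex.I / p) := by
      rw [hζ]
      have := ZMod.stdAddChar_coe (N := p) 1
      simpa using this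
    rw [h2]; exact h1
  have hpow : ∀ x : ZMod p, ZMod.stdAddChar x = ζ ^ x.val := by
    intro x
    rw [hζ, ← AddChar.map_nsmul_eq_pow]
    congr 1
    simp
  obtain ⟨P, hP⟩ : ∃ P : Polynomial ℚ, P = ∑ t ∈ range p,
      Polynomial.C (((univ.filter (fun x : ZMod p => g x = (t : ZMod p))).card : ℚ)) *
        Polynomial.X ^ t := ⟨_, rfl⟩
  have hPz : Polynomial.aeval ζ P = 0 := by
    rw [hP, map_sum]
    rw [← hsum]
    simp only [map_mul, Polynomial.aeval_C, map_pow, Polynomial.aeval_X, map_natCast]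
    rw [← sum_fiberwise_of_maps_to (s := univ) (t := range p) (g := fun x : ZMod p => (g x).val)
      (fun x _ => mem_range.mpr (ZMod.val_lt _))]
    apply sum_congr rfl
    intro t ht
    have e : univ.filter (fun x : ZMod p => (g x).val = t) =
        univ.filter (fun x : ZMod p => g x = (t : ZMod p)) := by
      ext x
      simp only [mem_filter, mem_univ, true_and]
      constructor
      · intro h; rw [← h]; simp
      · intro h; rw [h]; exact ZMod.val_cast_of_lt (mem_range.mp ht)
    rw [e, sum_congr rfl (fun x hx => by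
      rw [hpow, (mem_filter.mp hx).2, ZMod.val_cast_of_lt (mem_range.mp ht)]), sum_const,
      nsmul_eq_mul]
  have hmin : Polynomial.cyclotomic p ℚ ∣ P := by
    rw [Polynomial.cyclotomic_eq_minpoly_rat hζprim hp0]
    exact minpoly.dvd ℚ ζ hPz
  have hcoeff : ∀ t < p, P.coeff t =
      ((univ.filter (fun x : ZMod p => g x = (t : ZMod p))).card : ℚ) := by
    intro t ht
    rw [hP, Polynomial.finset_sum_coeff]
    simp only [Polynomial.coeff_C_mul, Polynomial.coeff_X_pow]
    rw [sum_eq_single t]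
    · simp
    · intro s _ hs
      simp [Ne.symm hs]
    · intro h; exact absurd (mem_range.mpr ht) h
  have hdeg : P.natDegree ≤ p - 1 := by
    rw [hP]
    apply Polynomial.natDegree_sum_le_of_forall_le
    intro t ht
    refine (Polynomial.natDegree_C_mul_X_pow_le _ _).trans ?_
    have := mem_range.mp ht
    omega
  obtain ⟨r, hr⟩ := hmin
  have hcyc : (Polynomial.cyclotomic p ℚ).natDegree = p - 1 := by
    rw [Polynomial.natDegree_cyclotomic, Nat.totient_prime hp.out]
  have hr0 : ∃ c : ℚ, r = Polynomial.C c := by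
    by_cases hrz : r = 0
    · exact ⟨0, by rw [hrz]; simp⟩
    · have h1 : P.natDegree = (p - 1) + r.natDegree := by
        rw [hr, Polynomial.natDegree_mul (Polynomial.cyclotomic_ne_zero p ℚ) hrz, hcyc]
      exact ⟨r.coeff 0, Polynomial.eq_C_of_natDegree_eq_zero (by omega)⟩
  obtain ⟨c, hc⟩ := hr0
  have hconst : ∀ t < p, ((univ.filter (fun x : ZMod p => g x = (t : ZMod p))).card : ℚ) = c := by
    intro t ht
    rw [← hcoeff t ht, hr, hc, mul_comm, Polynomial.coeff_C_mul,
      Polynomial.cyclotomic_prime, Polynomial.finset_sum_coeff]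
    simp only [Polynomial.coeff_X_pow]
    rw [sum_eq_single t]
    · simp
    · intro s _ hs; simp [Ne.symm hs]
    · intro h; exact absurd (mem_range.mpr ht) h
  have htot : ∑ t ∈ range p, ((univ.filter (fun x : ZMod p => g x = (t : ZMod p))).card : ℚ) = p := by
    have h1 : ∑ t ∈ range p, (univ.filter (fun x : ZMod p => g x = (t : ZMod p))).card = p := by
      have h2 := card_eq_sum_card_fiberwise (f := fun x : ZMod p => (g x).val) (s := univ)
        (t := range p) (fun x _ => by simpa using ZMod.val_lt (g x))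
      rw [card_univ, ZMod.card] at h2
      refine Eq.trans ?_ h2.symm
      apply sum_congr rfl
      intro t ht
      congr 1
      ext x
      simp only [mem_filter, mem_univ, true_and]
      constructor
      · intro h; rw [h]; exact ZMod.val_cast_of_lt (mem_range.mp ht)
      · intro h; rw [← h]; simp
    exact_mod_cast h1
  have hc1 : c = 1 := by
    rw [sum_congr rfl (fun t ht => hconst t (mem_range.mp ht)), sum_const, card_range,
      nsmul_eq_mul] at htot
    have hpr : (p : ℚ) ≠ 0 := by exact_mod_cast hp0.ne'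
    have : (p : ℚ) * c = p * 1 := by rw [htot, mul_one]
    exact mul_left_cancel₀ hpr this
  have hsurj : Function.Surjective g := by
    intro y
    have h1 := hconst y.val (ZMod.val_lt y)
    rw [hc1] at h1
    have h2 : (univ.filter (fun x : ZMod p => g x = ((y.val : ℕ) : ZMod p))).card = 1 := by
      exact_mod_cast h1
    obtain ⟨x, hx⟩ := card_pos.mp (by rw [h2]; exact one_pos)
    refine ⟨x, ?_⟩
    rw [(mem_filter.mp hx).2]; simp
  exact Finite.surjective_iff_bijective.mp hsurj

theorem sum_char_bij (g : ZMod p → ZMod p) (hg : Function.Bijective g) :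
    ∑ x : ZMod p, ZMod.stdAddChar (g x) = (0 : ℂ) := by
  have h1 : ∑ x : ZMod p, (ZMod.stdAddChar (g x) : ℂ) = ∑ x : ZMod p, ZMod.stdAddChar x :=
    (Equiv.ofBijective g hg).sum_comp (fun x => (ZMod.stdAddChar x : ℂ))
  rw [h1]
  apply AddChar.sum_eq_zero_of_ne_one
  intro h
  have := ZMod.injective_stdAddChar (N := p)
  have h2 : (ZMod.stdAddChar (1 : ZMod p) : ℂ) = ZMod.stdAddChar (0 : ZMod p) := by
    rw [h]; simp
  have h3 := this h2
  exact one_ne_zero h3

theorem char_sum {ι : Type} (s : Finset ι) (f : ι → ZMod p) :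
    (ZMod.stdAddChar (∑ i ∈ s, f i) : ℂ) = ∏ i ∈ s, (ZMod.stdAddChar (f i) : ℂ) := by
  classical
  induction s using Finset.induction_on with
  | empty => simp
  | insert i s hi ih => rw [sum_insert hi, prod_insert hi, AddChar.map_add_eq_mul, ih]

theorem prod_form {n : ℕ} (g : Fin n → ZMod p → ZMod p) :
    ∑ x : Fin n → ZMod p, (ZMod.stdAddChar (∑ r, g r (x r)) : ℂ) =
      ∏ r, ∑ a : ZMod p, (ZMod.stdAddChar (g r a) : ℂ) := by
  classical
  rw [Finset.prod_univ_sum, Fintype.piFinset_univ]
  apply sum_congr rfl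
  intro x _
  exact char_sum _ _

/-- few translates along `α` are permutations -/
theorem few (α π : ZMod p → ZMod p) (h : ℕ) (h1 : 1 ≤ h) (h2 : h < p - 1)
    (hα : ∑ x, α x ^ h ≠ 0) :
    (univ.filter (fun τ : ZMod p => Function.Bijective (fun x => π x + τ * α x))).card ≤ h := by
  classical
  obtain ⟨Q, hQ⟩ : ∃ Q : Polynomial (ZMod p), Q = ∑ x : ZMod p,
      (Polynomial.C (α x) * Polynomial.X + Polynomial.C (π x)) ^ h := ⟨_, rfl⟩
  have hcoef : Q.coeff h = ∑ x, α x ^ h := by
    rw [hQ, Polynomial.finset_sum_coeff]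
    apply sum_congr rfl
    intro x _
    have := Polynomial.coeff_pow_of_natDegree_le (p := Polynomial.C (α x) * Polynomial.X +
      Polynomial.C (π x)) (n := 1) (m := h) (Polynomial.natDegree_linear_le)
    rw [mul_one] at this
    rw [this]
    simp
  have hQ0 : Q ≠ 0 := by
    intro h0
    rw [h0] at hcoef
    simp at hcoef
    exact hα hcoef.symm
  have hdeg : Q.natDegree ≤ h := by
    rw [hQ]
    apply Polynomial.natDegree_sum_le_of_forall_le
    intro x _
    refine Polynomial.natDegree_pow_le.trans ?_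
    have := Polynomial.natDegree_linear_le (a := α x) (b := π x)
    nlinarith
  have hsub : (univ.filter (fun τ : ZMod p => Function.Bijective (fun x => π x + τ * α x))) ⊆
      Q.roots.toFinset := by
    intro τ hτ
    rw [mem_filter] at hτ
    rw [Multiset.mem_toFinset, Polynomial.mem_roots hQ0, Polynomial.IsRoot.def, hQ,
      Polynomial.eval_finset_sum]
    have e : ∑ x : ZMod p, Polynomial.eval τ ((Polynomial.C (α x) * Polynomial.X +
        Polynomial.C (π x)) ^ h) = ∑ x : ZMod p, (π x + τ * α x) ^ h := by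
      apply sum_congr rfl; intro x _
      simp only [Polynomial.eval_pow, Polynomial.eval_add, Polynomial.eval_mul, Polynomial.eval_C,
        Polynomial.eval_X]
      ring
    rw [e]
    have e2 : ∑ x : ZMod p, (π x + τ * α x) ^ h = ∑ x : ZMod p, x ^ h :=
      (Equiv.ofBijective _ hτ.2).sum_comp (fun x : ZMod p => x ^ h)
    rw [e2]
    apply FiniteField.sum_pow_lt_card_sub_one
    rw [ZMod.card]; exact h2
  calc _ ≤ Q.roots.toFinset.card := card_le_card hsub
    _ ≤ Multiset.card Q.roots := Multiset.toFinset_card_le _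
    _ ≤ Q.natDegree := Polynomial.card_roots' Q
    _ ≤ h := hdeg

theorem nonbij (α : ZMod p → ZMod p) (h : ℕ) (h2 : h < p - 1)
    (hα : ∑ x, α x ^ h ≠ 0) : ¬ Function.Bijective α := by
  intro hb
  apply hα
  have e2 : ∑ x : ZMod p, α x ^ h = ∑ x : ZMod p, x ^ h :=
    (Equiv.ofBijective _ hb).sum_comp (fun x : ZMod p => x ^ h)
  rw [e2]
  apply FiniteField.sum_pow_lt_card_sub_one
  rw [ZMod.card]; exact h2

theorem exists_tau (α β π : ZMod p → ZMod p) (h h' : ℕ) (h1 : 1 ≤ h) (h1' : 1 ≤ h')
    (h2 : 2 * h ≤ p - 1) (h2' : 2 * h' ≤ p - 1)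
    (hα : ∑ x, α x ^ h ≠ 0) (hβ : ∑ x, β x ^ h' ≠ 0) :
    ∃ τ : ZMod p, ¬ Function.Bijective (fun x => π x + τ * α x) ∧
      ¬ Function.Bijective (fun x => β x + τ * π x) := by
  classical
  by_cases hπ : Function.Bijective π
  · have hA := few α π h h1 (by omega) hα
    have hB := few β π h' h1' (by omega) hβ
    obtain ⟨A, hAd⟩ : ∃ A, A = univ.filter (fun τ : ZMod p =>
      Function.Bijective (fun x => π x + τ * α x)) := ⟨_, rfl⟩
    obtain ⟨B, hBd⟩ : ∃ B, B = univ.filter (fun τ : ZMod p =>
      Function.Bijective (fun x => π x + τ * β x)) := ⟨_, rfl⟩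
    rw [← hAd] at hA
    rw [← hBd] at hB
    have h0A : (0 : ZMod p) ∈ A := by
      rw [hAd, mem_filter]; refine ⟨mem_univ _, ?_⟩; simpa using hπ
    have h0B : (0 : ZMod p) ∈ B := by
      rw [hBd, mem_filter]; refine ⟨mem_univ _, ?_⟩; simpa using hπ
    have hcard : (A ∪ B.image (fun τ => τ⁻¹)).card < (univ : Finset (ZMod p)).card := by
      have h3 : (A ∪ B.image (fun τ => τ⁻¹)) ⊆ insert 0 ((A.erase 0) ∪ ((B.erase 0).image (fun τ => τ⁻¹))) := by
        intro τ hτ
        rcases mem_union.mp hτ with h4 | h4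
        · by_cases h5 : τ = 0
          · rw [h5]; exact mem_insert_self _ _
          · exact mem_insert_of_mem (mem_union_left _ (mem_erase.mpr ⟨h5, h4⟩))
        · obtain ⟨σ, hσ, rfl⟩ := mem_image.mp h4
          by_cases h5 : σ = 0
          · rw [h5, inv_zero]; exact mem_insert_self _ _
          · exact mem_insert_of_mem (mem_union_right _ (mem_image_of_mem _ (mem_erase.mpr ⟨h5, hσ⟩)))
      have h4 := card_le_card h3
      have h5 := card_insert_le (0 : ZMod p) ((A.erase 0) ∪ ((B.erase 0).image (fun τ => τ⁻¹)))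
      have h6 := card_union_le (A.erase 0) ((B.erase 0).image (fun τ => τ⁻¹))
      have h7 : ((B.erase 0).image (fun τ : ZMod p => τ⁻¹)).card ≤ (B.erase 0).card := card_image_le
      rw [card_erase_of_mem h0A] at h6
      rw [card_erase_of_mem h0B] at h7
      have h8 : 0 < A.card := card_pos.mpr ⟨0, h0A⟩
      have h9 : 0 < B.card := card_pos.mpr ⟨0, h0B⟩
      rw [card_univ, ZMod.card]
      omega
    obtain ⟨τ, -, hτ⟩ := exists_mem_notMem_of_card_lt_card hcard
    rw [mem_union, not_or] at hτ
    refine ⟨τ, ?_, ?_⟩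
    · intro hb
      exact hτ.1 (by rw [hAd, mem_filter]; exact ⟨mem_univ _, hb⟩)
    · intro hb
      have hτ0 : τ ≠ 0 := by
        intro h; rw [h] at hτ; exact hτ.1 h0A
      apply hτ.2
      apply mem_image.mpr
      refine ⟨τ⁻¹, ?_, inv_inv _⟩
      rw [hBd, mem_filter]
      refine ⟨mem_univ _, ?_⟩
      have e : (fun x => π x + τ⁻¹ * β x) = (fun y => τ⁻¹ * y) ∘ (fun x => β x + τ * π x) := by
        funext x
        simp only [Function.comp_apply]
        field_simp
        ring
      rw [e]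
      exact Function.Bijective.comp (mulLeft_bijective₀ _ (inv_ne_zero hτ0)) hb
  · refine ⟨0, ?_, ?_⟩
    · simpa using hπ
    · have := nonbij β h' (by omega) hβ
      simpa using this

end

end Pool.Agent.X185.CA
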